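import Mathlib

/-!
# MP_d1327c_gt: the Lindelöf property of `C_p (Y)` from stationary many sets `F δ` to which
functions can be restricted
-/

set_option autoImplicit false

open Set Topology TopologicalSpace

namespace MPd1327c

/-- countable sets in `ω₁` are bounded -/
theorem exists_bound {I : Type*} [LinearOrder I] [Uncountable I]
    (hI : ∀ i : I, (Iio i).Countable) (C : Set I) (hC : C.Countable) : ∃ b, ∀ c ∈ C, c ≤ b := by
  by_contra hcon
  push Not at hcon
  have h1 : (univ : Set I) ⊆ ⋃ c ∈ C, Iio c := by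
    intro i _
    obtain ⟨c, hc, hic⟩ := hcon i
    exact mem_biUnion hc hic
  exact not_countable_univ ((hC.biUnion fun c _ => hI c).mono h1)

/-- functions which depend on finitely many coordinates -/
abbrev TT (J : Type*) := Σ E : Finset J, ((E → Bool) → ℚ)

noncomputable def Dt {Y J : Type*} (c : J → Y → Bool) (t : TT J) (y : Y) : ℝ :=
  (t.2 fun j => c j y : ℚ)

theorem continuous_Dt {Y J : Type*} [TopologicalSpace Y] (c : J → Y → Bool)
    (hc : ∀ j, Continuous (c j)) (t : TT J) : Continuous (Dt c t) := by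
  have h1 : Continuous fun y => (fun j : t.1 => c j y) := continuous_pi fun j => hc j
  have h2 : Continuous fun e : t.1 → Bool => ((t.2 e : ℚ) : ℝ) := continuous_of_discreteTopology
  exact h2.comp h1

theorem countable_TT {J : Type*} (s : Set J) (hs : s.Countable) :
    {t : TT J | (t.1 : Set J) ⊆ s}.Countable := by
  have h1 : {E : Finset J | (E : Set J) ⊆ s}.Countable := by
    have h2 := Set.countable_ofPred_finite_subset hs
    refine (h2.preimage_of_injOn (f := fun E : Finset J => (E : Set J))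
      (Finset.coe_injective.injOn)).mono ?_
    intro E hE
    exact ⟨E.finite_toSet, hE⟩
  refine (h1.biUnion (t := fun E _ => range (Sigma.mk (β := fun E : Finset J =>
    ((E → Bool) → ℚ)) E)) fun E _ => countable_range _).mono ?_
  rintro ⟨E, φ⟩ hE
  exact mem_biUnion (x := E) hE ⟨φ, rfl⟩

/-- uniform approximation on a compact set on which the coordinates in `s` separate points -/
theorem approx {Y J : Type*} [TopologicalSpace Y] (c : J → Y → Bool)
    (hc : ∀ j, Continuous (c j)) (G : Set Y) (hG : IsCompact G) (s : Set J)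
    (hs : ∀ y ∈ G, ∀ y' ∈ G, (∀ j ∈ s, c j y = c j y') → y = y') (u : Y → ℝ) (hu : Continuous u)
    (η : ℝ) (hη : 0 < η) :
    ∃ t : TT J, (t.1 : Set J) ⊆ s ∧ ∀ y ∈ G, |u y - Dt c t y| < η := by
  classical
  have hK : IsCompact ((G ×ˢ G) ∩ {q : Y × Y | η / 2 ≤ |u q.1 - u q.2|}) := by
    refine (hG.prod hG).inter_right ?_
    exact isClosed_le continuous_const
      ((hu.comp continuous_fst).sub (hu.comp continuous_snd)).abs
  obtain ⟨E, hE⟩ := hK.elim_finite_subcover (fun j : s => {q : Y × Y | c j q.1 ≠ c j q.2})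
    (fun j => by
      have h1 : Continuous fun q : Y × Y => (c j q.1, c j q.2) :=
        ((hc j).comp continuous_fst).prodMk ((hc j).comp continuous_snd)
      exact (isOpen_discrete {r : Bool × Bool | r.1 ≠ r.2}).preimage h1)
    (by
      rintro ⟨y, y'⟩ ⟨⟨h1, h2⟩, h3⟩
      rw [mem_iUnion]
      by_contra hcon
      push Not at hcon
      have h5 : y = y' := hs y h1 y' h2 (fun j hj => by
        have := hcon ⟨j, hj⟩
        simpa using this)
      subst h5
      have h6 : η / 2 ≤ |u y - u y| := h3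
      rw [sub_self, abs_zero] at h6
      linarith)
  let E' : Finset J := E.image Subtype.val
  have hE' : ∀ y ∈ G, ∀ y' ∈ G, (∀ j ∈ E', c j y = c j y') → |u y - u y'| < η / 2 := by
    intro y hy y' hy' h
    by_contra hcon
    push Not at hcon
    have h1 := hE (show (y, y') ∈ (G ×ˢ G) ∩ {q : Y × Y | η / 2 ≤ |u q.1 - u q.2|} from
      ⟨⟨hy, hy'⟩, hcon⟩)
    simp only [mem_iUnion, exists_prop] at h1
    obtain ⟨j, hj, h2⟩ := h1
    exact h2 (h j (Finset.mem_image_of_mem _ hj))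
  let φ : (E' → Bool) → ℚ := fun e =>
    if h : ∃ y ∈ G, (fun j : E' => c j y) = e then
      (exists_rat_near (u h.choose) (ε := η / 2) (by positivity)).choose else 0
  refine ⟨⟨E', φ⟩, ?_, ?_⟩
  · intro j hj
    obtain ⟨j', -, rfl⟩ := Finset.mem_image.1 (Finset.mem_coe.1 hj)
    exact j'.2
  · intro y hy
    have h : ∃ y' ∈ G, (fun j : E' => c j y') = (fun j : E' => c j y) := ⟨y, hy, rfl⟩
    have h1 : Dt c ⟨E', φ⟩ y =
        ((exists_rat_near (u h.choose) (ε := η / 2) (by positivity)).choose : ℝ) := by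
      show ((φ fun j => c j y : ℚ) : ℝ) = _
      rw [show φ (fun j => c j y) = _ from dif_pos h]
    have h2 := (exists_rat_near (u h.choose) (ε := η / 2) (by positivity)).choose_spec
    have h3 := hE' y hy h.choose h.choose_spec.1 (fun j hj =>
      (congrFun h.choose_spec.2 ⟨j, hj⟩).symm)
    rw [h1]
    calc |u y - _| ≤ |u y - u h.choose| + |u h.choose - _| := abs_sub_le _ _ _
      _ < η / 2 + η / 2 := add_lt_add h3 h2
      _ = η := by ring

theorem lindelof {Y J Ad : Type*} [TopologicalSpace Y] [CompactSpace Y] [Preorder Ad]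
    (c : J → Y → Bool) (hc : ∀ j, Continuous (c j)) (F : Ad → Set Y)
    (hmono : ∀ p q, p ≤ q → F p ⊆ F q) (hcl : ∀ p, IsClosed (F p)) (hF : ∀ y, ∃ p, y ∈ F p)
    (hdir : ∀ C : Set Ad, C.Countable → ∃ b, ∀ p ∈ C, p ≤ b)
    (cs : Ad → Set J) (hcs : ∀ p, (cs p).Countable)
    (hS : ∀ Γ : Finset J → Ad, ∃ p, (∀ E : Finset J, (E : Set J) ⊆ cs p → Γ E ≤ p) ∧
      (∀ y ∈ F p, ∀ y' ∈ F p, (∀ j ∈ cs p, c j y = c j y') → y = y') ∧
      ∀ y, ∃ y' ∈ F p, ∀ j ∈ cs p, c j y' = c j y) :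
    IsLindelof {u : Y → ℝ | Continuous u} := by
  classical
  apply isLindelof_of_countable_subcover
  intro ι U hU hcov
  -- neighbourhoods
  let N : (Y → ℝ) → Finset Y → ℝ → Set (Y → ℝ) := fun g K r => {u | ∀ k ∈ K, |u k - g k| < r}
  have hbound : ∀ K : Finset Y, ∃ b, ∀ k ∈ K, k ∈ F b := by
    intro K
    choose b hb using hF
    obtain ⟨m, hm⟩ := hdir ((K.image b : Finset Ad) : Set Ad) (Finset.countable_toSet _)
    exact ⟨m, fun k hk => hmono _ _ (hm _ (by
      exact_mod_cast Finset.mem_image_of_mem b hk)) (hb k)⟩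
  choose bd hbd using hbound
  let Gd : TT J × ℕ → Prop := fun q => ∃ (i : ι) (K : Finset Y), N (Dt c q.1) K (1 / (q.2 + 1)) ⊆ U i
  have hne : Nonempty ι := by
    obtain ⟨i, -⟩ := mem_iUnion.1 (hcov (show (fun _ : Y => (0 : ℝ)) ∈ {u : Y → ℝ | Continuous u} from
      continuous_const))
    exact ⟨i⟩
  let ii : TT J × ℕ → ι := fun q => if h : Gd q then h.choose else hne.some
  let KK : TT J × ℕ → Finset Y := fun q => if h : Gd q then h.choose_spec.choose else ∅
  have hiK : ∀ q, Gd q → N (Dt c q.1) (KK q) (1 / (q.2 + 1)) ⊆ U (ii q) := by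
    intro q h
    simp only [ii, KK, dif_pos h]
    exact h.choose_spec.choose_spec
  -- the closing off function
  have hex : ∀ E : Finset J, ∃ b : Ad, ∀ (φ : (E → Bool) → ℚ) (n : ℕ), bd (KK (⟨E, φ⟩, n)) ≤ b := by
    intro E
    obtain ⟨b, hb⟩ := hdir (range fun r : ((E → Bool) → ℚ) × ℕ => bd (KK (⟨E, r.1⟩, r.2)))
      (countable_range _)
    exact ⟨b, fun φ n => hb _ ⟨(φ, n), rfl⟩⟩
  choose Γ hΓ using hex
  obtain ⟨p, hpΓ, hinj, hret⟩ := hS Γ
  have hcount : ({q : TT J × ℕ | (q.1.1 : Set J) ⊆ cs p}).Countable := by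
    refine ((countable_TT (cs p) (hcs p)).prod (countable_univ (α := ℕ))).mono ?_
    rintro ⟨t, n⟩ h
    exact ⟨h, trivial⟩
  refine ⟨ii '' {q : TT J × ℕ | (q.1.1 : Set J) ⊆ cs p}, hcount.image _, ?_⟩
  intro u hu
  have hu' : Continuous u := hu
  choose R hRF hRc using hret
  have hap : ∀ η : ℝ, 0 < η → ∃ t : TT J, (t.1 : Set J) ⊆ cs p ∧
      (∀ y ∈ F p, |u y - Dt c t y| < η) ∧ ∀ y, |u (R y) - Dt c t y| < η := by
    intro η hη
    obtain ⟨t, ht, ht'⟩ := approx c hc (F p) (hcl p).isCompact (cs p) hinj u hu' η hη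
    refine ⟨t, ht, ht', fun y => ?_⟩
    have h1 : Dt c t (R y) = Dt c t y := by
      have h2 : (fun j : t.1 => c j (R y)) = fun j : t.1 => c j y := by
        funext j
        exact hRc y j (ht (Finset.mem_coe.2 j.2))
      show ((t.2 fun j => c j (R y) : ℚ) : ℝ) = ((t.2 fun j => c j y : ℚ) : ℝ)
      rw [h2]
    rw [← h1]
    exact ht' _ (hRF y)
  have hg : Continuous fun y => u (R y) := by
    apply continuous_of_uniform_approx_of_continuous
    intro V hV
    obtain ⟨ε, hε, hεV⟩ := Metric.mem_uniformity_dist.1 hV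
    obtain ⟨t, -, -, ht⟩ := hap ε hε
    refine ⟨Dt c t, continuous_Dt c hc t, fun y => hεV ?_⟩
    rw [Real.dist_eq]
    exact ht y
  obtain ⟨i, hi⟩ := mem_iUnion.1 (hcov (show (fun y => u (R y)) ∈ {u : Y → ℝ | Continuous u} from hg))
  -- a basic neighbourhood of `u ∘ R`
  obtain ⟨K, η, hη, hKη⟩ : ∃ (K : Finset Y) (η : ℝ), 0 < η ∧ N (fun y => u (R y)) K η ⊆ U i := by
    obtain ⟨K, w, hw, hwU⟩ := isOpen_pi_iff.1 (hU i) _ hi
    have h1 : ∀ k ∈ K, ∃ r : ℝ, 0 < r ∧ Metric.ball (u (R k)) r ⊆ w k := fun k hk =>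
      Metric.isOpen_iff.1 (hw k hk).1 _ (hw k hk).2
    choose! r hr0 hr using h1
    rcases K.eq_empty_or_nonempty with rfl | hne
    · exact ⟨∅, 1, one_pos, fun g _ => hwU (by simp)⟩
    · obtain ⟨k0, hk0, hmin⟩ := K.exists_min_image r hne
      refine ⟨K, r k0, hr0 k0 hk0, fun g hg => hwU ?_⟩
      intro k hk
      refine hr k hk ?_
      rw [Metric.mem_ball, Real.dist_eq]
      exact (hg k hk).trans_le (hmin k hk)
  obtain ⟨n, hn⟩ := exists_nat_one_div_lt (half_pos hη)
  obtain ⟨t, ht1, ht2, ht3⟩ := hap (1 / ((n : ℝ) + 1)) Nat.one_div_pos_of_nat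
  have hGd : Gd (t, n) := by
    refine ⟨i, K, fun g hg => hKη fun k hk => ?_⟩
    have h1 : |g k - Dt c t k| < 1 / ((n : ℝ) + 1) := hg k hk
    have h2 := ht3 k
    rw [abs_sub_comm] at h2
    calc |g k - u (R k)| ≤ |g k - Dt c t k| + |Dt c t k - u (R k)| := abs_sub_le _ _ _
      _ < η := by linarith
  have hKF : ∀ k ∈ KK (t, n), k ∈ F p := by
    intro k hk
    have h1 : k ∈ F (bd (KK (t, n))) := hbd _ k hk
    exact hmono _ _ ((hΓ t.1 t.2 n).trans (hpΓ t.1 ht1)) h1
  refine mem_biUnion (x := ii (t, n)) ⟨(t, n), ht1, rfl⟩ (hiK (t, n) hGd ?_)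
  intro k hk
  exact ht2 k (hKF k hk)

end MPd1327c
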