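import Pool.Agent.Lib.MP_d1327c_gt.SPL
import Pool.Agent.Lib.MP_d1327c_gt.LND

/-!
# MP_d1327c_gt: closing off pairs (countable set of coordinates, countable ordinal)
-/

set_option autoImplicit false

open Set Topology TopologicalSpace

namespace MPd1327c

/-- pairs (countable subset of `A`, element of `I`) -/
abbrev Adr (A I : Type*) := {B : Set A // B.Countable} × I

theorem adr_le {A I : Type*} [LinearOrder I] (p q : Adr A I) :
    p ≤ q ↔ (p.1 : Set A) ⊆ q.1 ∧ p.2 ≤ q.2 := Iff.rfl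

theorem adr_dir {A I : Type*} [LinearOrder I] [Uncountable I]
    (hI : ∀ i : I, (Iio i).Countable) (C : Set (Adr A I)) (hC : C.Countable) :
    ∃ b, ∀ p ∈ C, p ≤ b := by
  obtain ⟨b, hb⟩ := exists_bound hI _ (hC.image Prod.snd)
  refine ⟨⟨⟨⋃ p ∈ C, (p.1 : Set A), hC.biUnion fun p _ => p.1.2⟩, b⟩, fun p hp => ?_⟩
  exact ⟨subset_biUnion_of_mem (u := fun p : Adr A I => (p.1 : Set A)) hp, hb _ ⟨p, hp, rfl⟩⟩

/-- the coordinates of an address -/
def cs {A I : Type*} [LinearOrder I] (p : Adr A I) : Set (A × I × ℕ) :=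
  {j | j.1 ∈ (p.1 : Set A) ∧ j.2.1 < p.2}

theorem countable_cs {A I : Type*} [LinearOrder I] (hI : ∀ i : I, (Iio i).Countable)
    (p : Adr A I) : (cs p).Countable := by
  refine ((p.1.2.prod ((hI p.2).prod (countable_univ (α := ℕ))))).mono ?_
  rintro ⟨a, i, n⟩ ⟨h1, h2⟩
  exact ⟨h1, h2, trivial⟩

theorem countable_finsets {J : Type*} (s : Set J) (hs : s.Countable) :
    {E : Finset J | (E : Set J) ⊆ s}.Countable := by
  have h2 := Set.countable_ofPred_finite_subset hs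
  refine (h2.preimage_of_injOn (f := fun E : Finset J => (E : Set J))
    (Finset.coe_injective.injOn)).mono ?_
  intro E hE
  exact ⟨E.finite_toSet, hE⟩

/-- closing off, at an element of a stationary set -/
theorem chain {A I : Type*} [LinearOrder I] [WellFoundedLT I] [Uncountable I]
    (hI : ∀ i : I, (Iio i).Countable) (Sg : Set I)
    (hS : ∀ h : I → I, ∃ δ ∈ Sg, (Iio δ).Nonempty ∧ ∀ i < δ, h i < δ)
    (Γ : Finset (A × I × ℕ) → Adr A I) :
    ∃ p : Adr A I, (∀ E : Finset (A × I × ℕ), (E : Set (A × I × ℕ)) ⊆ cs p → Γ E ≤ p) ∧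
      p.2 ∈ Sg ∧ (Iio p.2).Nonempty := by
  classical
  let s : I → Set A → Set (A × I × ℕ) := fun k B => {j | j.1 ∈ B ∧ j.2.1 ≤ k}
  let N : I → Set A → Set A := fun k B =>
    ⋃ E ∈ {E : Finset (A × I × ℕ) | (E : Set _) ⊆ s k B}, ((Γ E).1 : Set A)
  obtain ⟨B, hB⟩ := exists_rec (I := I) (D := Set A)
    (fun γ p v => v = ⋃ k, ⋃ (_ : k < γ), (p k ∪ N k (p k)))
    (by
      rintro γ p q v hpq rfl
      refine iUnion_congr fun k => iUnion_congr fun hk => ?_
      rw [hpq k hk])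
    (fun γ p _ => ⟨_, rfl⟩)
  have hIic : ∀ k : I, (Iic k).Countable := by
    intro k
    rw [← Iio_union_right]
    exact (hI k).union (countable_singleton k)
  have hs : ∀ k (B : Set A), B.Countable → (s k B).Countable := by
    intro k B hB
    refine (hB.prod ((hIic k).prod (countable_univ (α := ℕ)))).mono ?_
    rintro ⟨a, i, n⟩ ⟨h1, h2⟩
    exact ⟨h1, h2, trivial⟩
  have hcount : ∀ γ, (B γ).Countable := by
    intro γ
    induction γ using WellFoundedLT.induction with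
    | ind γ ih =>
      rw [hB γ]
      have h1 : (⋃ k, ⋃ (_ : k < γ), (B k ∪ N k (B k))) = ⋃ k ∈ Iio γ, (B k ∪ N k (B k)) := rfl
      rw [h1]
      refine (hI γ).biUnion fun k hk => (ih k hk).union ?_
      exact (countable_finsets _ (hs k _ (ih k hk))).biUnion fun E _ => (Γ E).1.2
  have hmono : ∀ k γ, k < γ → B k ∪ N k (B k) ⊆ B γ := by
    intro k γ hk
    rw [hB γ]
    intro a ha
    exact mem_iUnion.2 ⟨k, mem_iUnion.2 ⟨hk, ha⟩⟩
  have hunb : ∀ i : I, ∃ j, i < j := by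
    intro i
    by_contra hcon
    push Not at hcon
    exact not_countable_univ (Set.Countable.mono (fun k _ => hcon k) (hIic i))
  have hh : ∀ i : I, ∃ b, i < b ∧ ∀ E : Finset (A × I × ℕ), (E : Set _) ⊆ s i (B i) →
      (Γ E).2 ≤ b := by
    intro i
    obtain ⟨b, hb⟩ := exists_bound hI _ ((countable_finsets _ (hs i _ (hcount i))).image
      fun E => (Γ E).2)
    obtain ⟨j, hj⟩ := hunb i
    exact ⟨max b j, hj.trans_le (le_max_right _ _), fun E hE =>
      (hb _ ⟨E, hE, rfl⟩).trans (le_max_left _ _)⟩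
  choose h hh1 hh2 using hh
  obtain ⟨δ, hδS, hδ0, hδ⟩ := hS h
  refine ⟨⟨⟨⋃ k ∈ Iio δ, B k, (hI δ).biUnion fun k _ => hcount k⟩, δ⟩, ?_, hδS, hδ0⟩
  intro E hE
  obtain ⟨i, hi, hEi⟩ : ∃ i < δ, (E : Set _) ⊆ s i (B i) := by
    have h1 : ∀ j ∈ E, ∃ i < δ, j.1 ∈ B i ∧ j.2.1 ≤ i := by
      intro j hj
      obtain ⟨h2, h3⟩ := hE (Finset.mem_coe.2 hj)
      obtain ⟨k, hk, h4⟩ := mem_iUnion₂.1 h2
      rcases le_total j.2.1 k with h5 | h5
      · exact ⟨k, hk, h4, h5⟩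
      · rcases h5.eq_or_lt with h6 | h6
        · exact ⟨k, hk, h4, h6 ▸ le_rfl⟩
        · exact ⟨j.2.1, h3, hmono k _ h6 (Or.inl h4), le_rfl⟩
    choose! w hw1 hw2 hw3 using h1
    rcases E.eq_empty_or_nonempty with rfl | hne
    · obtain ⟨i, hi⟩ := hδ0
      exact ⟨i, hi, by simp⟩
    · obtain ⟨j0, hj0, hmax⟩ := E.exists_max_image w hne
      refine ⟨w j0, hw1 j0 hj0, fun j hj => ⟨?_, (hw3 j hj).trans (hmax j hj)⟩⟩
      rcases (hmax j hj).eq_or_lt with h6 | h6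
      · rw [← h6]
        exact hw2 j hj
      · exact hmono _ _ h6 (Or.inl (hw2 j hj))
  refine ⟨?_, ((hh2 i E hEi).trans_lt (hδ i hi)).le⟩
  intro a ha
  have h1 : a ∈ N i (B i) := mem_iUnion₂.2 ⟨E, hEi, ha⟩
  exact mem_iUnion₂.2 ⟨h i, hδ i hi, hmono i (h i) (hh1 i) (Or.inr h1)⟩

end MPd1327c
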