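import Pool.Agent.Lib.MP_d1327c_gt.SPL

/-!
# MP_d1327c_gt: the zero-dimensional preimage
-/

set_option autoImplicit false
set_option linter.unusedSectionVars false

open Set Topology TopologicalSpace

namespace MPd1327c

universe u v

variable {X : Type u} [TopologicalSpace X] {I : Type v} [LinearOrder I]

abbrev ZZ (I : Type v) := I × ℕ → Bool

abbrev DD (X : Type u) (I : Type v) := ℕ → Set (X × ZZ I) × Set (X × ZZ I)

/-- the constraint at `γ` -/
def Cn (W : I → DD X I) (γ : I) (y : X × ZZ I) : Prop :=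
  ∀ n, (y.2 (γ, n) = true → y ∈ (W γ n).1) ∧ (y.2 (γ, n) = false → y ∈ (W γ n).2)

/-- the constraints below `γ` -/
def Pre (W : I → DD X I) (γ : I) (y : X × ZZ I) : Prop := ∀ β < γ, Cn W β y

structure Good (f : I → X → ℝ) (F : I → Set X) (S : Set I) (γ : I) (W : I → DD X I)
    (v : DD X I) : Prop where
  closed : ∀ n, IsClosed (v n).1 ∧ IsClosed (v n).2
  dep : ∀ n (y y' : X × ZZ I), (∀ ξ ≤ γ, f ξ y.1 = f ξ y'.1) →
    (∀ β < γ, ∀ m, y.2 (β, m) = y'.2 (β, m)) →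
    (y ∈ (v n).1 ↔ y' ∈ (v n).1) ∧ (y ∈ (v n).2 ↔ y' ∈ (v n).2)
  cover : ∀ n y, y ∈ (v n).1 ∨ y ∈ (v n).2
  miss : ∀ n, ∀ β ≤ γ, β ∈ S → ∀ y : X × ZZ I, y.1 ∈ F β → Pre W γ y →
    ¬(y ∈ (v n).1 ∧ y ∈ (v n).2)
  sep : ∀ y y' : X × ZZ I, f γ y.1 ≠ f γ y'.1 → ∃ n, y ∉ (v n).2 ∧ y' ∉ (v n).1

variable {f : I → X → ℝ} {F : I → Set X} {S : Set I}

theorem pre_congr {W W' : I → DD X I} {γ : I} (h : ∀ β < γ, W β = W' β) (y : X × ZZ I) :
    Pre W γ y ↔ Pre W' γ y := by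
  refine forall₂_congr fun β hβ => ?_
  rw [Cn, Cn, h β hβ]

theorem good_loc (γ : I) (W W' : I → DD X I) (v : DD X I) (h : ∀ β < γ, W β = W' β)
    (hg : Good f F S γ W v) : Good f F S γ W' v :=
  ⟨hg.closed, hg.dep, hg.cover, fun n β hβ hS y hy hp =>
    hg.miss n β hβ hS y hy ((pre_congr h y).2 hp), hg.sep⟩

theorem eqf {W : I → DD X I} {ξ : I} (hg : Good f F S ξ W (W ξ)) {y y' : X × ZZ I}
    (hy : Cn W ξ y) (hy' : Cn W ξ y') (h : ∀ m, y.2 (ξ, m) = y'.2 (ξ, m)) :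
    f ξ y.1 = f ξ y'.1 := by
  by_contra hne
  obtain ⟨n, h1, h2⟩ := hg.sep y y' hne
  rcases hb : y.2 (ξ, n) with _ | _
  · exact h1 ((hy n).2 hb)
  · exact h2 ((hy' n).1 (by rw [← h n, hb]))

theorem uniq [WellFoundedLT I] {W : I → DD X I} {γ β : I} (hg : ∀ ξ < γ, Good f F S ξ W (W ξ))
    (hβ : β ≤ γ) (hS : β ∈ S)
    (hB : ∀ x ∈ F β, ∀ x' ∈ F β, (∀ ξ < β, f ξ x = f ξ x') → x = x')
    {y y' : X × ZZ I} (hyF : y.1 ∈ F β) (hyF' : y'.1 ∈ F β) (hy : Pre W γ y) (hy' : Pre W γ y')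
    (h : ∀ α < β, ∀ m, y.2 (α, m) = y'.2 (α, m)) :
    y.1 = y'.1 ∧ ∀ α < γ, ∀ m, y.2 (α, m) = y'.2 (α, m) := by
  have h1 : y.1 = y'.1 := hB _ hyF _ hyF' fun ξ hξ =>
    eqf (hg ξ (hξ.trans_le hβ)) (hy ξ (hξ.trans_le hβ)) (hy' ξ (hξ.trans_le hβ)) (h ξ hξ)
  refine ⟨h1, fun α => ?_⟩
  induction α using WellFoundedLT.induction with
  | ind α ih =>
    intro hα n
    by_cases hαβ : α < β
    · exact h α hαβ n
    push Not at hαβ
    have hd := (hg α hα).dep n y y' (fun ξ _ => by rw [h1]) (fun ζ hζ => ih ζ hζ (hζ.trans hα))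
    have hm := (hg α hα).miss n β hαβ hS y hyF (fun ζ hζ => hy ζ (hζ.trans hα))
    rcases hb : y.2 (α, n) with _ | _
    · rcases hb' : y'.2 (α, n) with _ | _
      · rfl
      · exact (hm ⟨hd.1.2 ((hy' α hα n).1 hb'), (hy α hα n).2 hb⟩).elim
    · rcases hb' : y'.2 (α, n) with _ | _
      · exact (hm ⟨(hy α hα n).1 hb, hd.2.2 ((hy' α hα n).2 hb')⟩).elim
      · rfl

theorem isClosed_cn {W : I → DD X I} {γ : I} (hW : ∀ n, IsClosed (W γ n).1 ∧ IsClosed (W γ n).2) :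
    IsClosed {y : X × ZZ I | Cn W γ y} := by
  have h1 : {y : X × ZZ I | Cn W γ y} = ⋂ n, (({y | y.2 (γ, n) = false} ∪ (W γ n).1) ∩
      ({y | y.2 (γ, n) = true} ∪ (W γ n).2)) := by
    ext y
    simp only [Cn, mem_iInter, mem_inter_iff, mem_union, mem_ofPred_eq]
    refine forall_congr' fun n => ?_
    rcases y.2 (γ, n) with _ | _ <;> simp
  rw [h1]
  have hc : ∀ n, Continuous fun y : X × ZZ I => y.2 (γ, n) := fun n =>
    (continuous_apply (γ, n)).comp continuous_snd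
  refine isClosed_iInter fun n => ?_
  refine IsClosed.inter (IsClosed.union ?_ (hW n).1) (IsClosed.union ?_ (hW n).2)
  · exact (isClosed_discrete {false}).preimage (hc n)
  · exact (isClosed_discrete {true}).preimage (hc n)

theorem isClosed_pre {W : I → DD X I} {γ : I}
    (hW : ∀ β < γ, ∀ n, IsClosed (W β n).1 ∧ IsClosed (W β n).2) :
    IsClosed {y : X × ZZ I | Pre W γ y} := by
  have h1 : {y : X × ZZ I | Pre W γ y} = ⋂ β, ⋂ (_ : β < γ), {y | Cn W β y} := by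
    ext y
    simp [Pre]
  rw [h1]
  exact isClosed_iInter fun β => isClosed_iInter fun hβ => isClosed_cn (hW β hβ)

theorem exists_good [CompactSpace X] [WellFoundedLT I]
    (hI : ∀ i : I, (Iio i).Countable) (hf : ∀ i, Continuous (f i)) (hF : ∀ i, IsClosed (F i))
    (hS : ∀ β ∈ S, ∀ x ∈ F β, ∀ x' ∈ F β, (∀ ξ < β, f ξ x = f ξ x') → x = x')
    (γ : I) (W : I → DD X I) (hW : ∀ β < γ, Good f F S β W (W β)) :
    ∃ v, Good f F S γ W v := by
  classical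
  have hc1 : Countable (Iio γ) := (hI γ).to_subtype
  have hIic : (Iic γ).Countable := by
    rw [← Iio_union_right]
    exact (hI γ).union (countable_singleton γ)
  have hc2 : Countable (Iic γ) := hIic.to_subtype
  let P := (Iic γ → ℝ) × (Iio γ × ℕ → Bool)
  let Φ : X × ZZ I → P := fun y => (fun ξ => f ξ y.1, fun q => y.2 (q.1, q.2))
  have hΦ : Continuous Φ := by
    refine Continuous.prodMk (continuous_pi fun ξ => (hf ξ).comp continuous_fst)
      (continuous_pi fun q => (continuous_apply _).comp continuous_snd)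
  let K := {β : I // β ≤ γ ∧ β ∈ S}
  have hK : Countable K := (hIic.mono (s₁ := {β | β ≤ γ ∧ β ∈ S}) fun β hβ => hβ.1).to_subtype
  let GG : Option K → Set P := fun o => match o with
    | none => ∅
    | some β => Φ '' {y | Pre W γ y ∧ y.1 ∈ F β}
  obtain ⟨e, he⟩ := exists_surjective_nat (Option K)
  have hsplit : ∀ k, ∀ C D : Set P, IsClosed C → IsClosed D → Disjoint C D → ∃ H H' : Set P,
      IsClosed H ∧ IsClosed H' ∧ H ∪ H' = GG (e k) ∧ Disjoint H H' ∧ GG (e k) ∩ C ⊆ H ∧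
        GG (e k) ∩ D ⊆ H' := by
    intro k C D hC hD hCD
    rcases e k with _ | ⟨β, hβγ, hβS⟩
    · refine ⟨∅, ∅, isClosed_empty, isClosed_empty, ?_, ?_, ?_, ?_⟩
      · simp [GG]
      · simp
      · simp [GG]
      · simp [GG]
    · have hcl : IsClosed {y : X × ZZ I | Pre W γ y ∧ y.1 ∈ F β} :=
        (isClosed_pre fun α hα => (hW α hα).closed).inter ((hF β).preimage continuous_fst)
      have hcomp : IsCompact (GG (some ⟨β, hβγ, hβS⟩)) := hcl.isCompact.image hΦ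
      refine split (J := Iio β × ℕ) _ hcomp hcomp.isClosed
        (fun j z => z.2 (⟨j.1, lt_of_lt_of_le j.1.2 hβγ⟩, j.2)) (fun j =>
          (continuous_apply _).comp continuous_snd) ?_ C D hC hD hCD
      rintro _ ⟨y, ⟨hy1, hy2⟩, rfl⟩ _ ⟨y', ⟨hy1', hy2'⟩, rfl⟩ hj
      obtain ⟨h1, h2⟩ := uniq hW hβγ hβS (hS β hβS) hy2 hy2' hy1 hy1'
        (fun α hα m => hj (⟨α, hα⟩, m))
      refine Prod.ext ?_ ?_
      · funext ξ
        show f ξ y.1 = f ξ y'.1
        rw [h1]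
      · funext q
        exact h2 q.1 q.1.2 q.2
  obtain ⟨v, h1, h2, h3, h4⟩ := family (P := P) (fun k => GG (e k)) hsplit
  refine ⟨fun n => (Φ ⁻¹' (v n).1, Φ ⁻¹' (v n).2), ⟨fun n => ⟨(h1 n).1.preimage hΦ,
    (h1 n).2.preimage hΦ⟩, ?_, fun n y => h2 n (Φ y), ?_, ?_⟩⟩
  · intro n y y' hff hee
    have h5 : Φ y = Φ y' := by
      refine Prod.ext ?_ ?_
      · funext ξ
        exact hff ξ ξ.2
      · funext q
        exact hee q.1 q.1.2 q.2
    simp only [mem_preimage, h5, and_self]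
  · intro n β hβγ hβS y hyF hyP
    obtain ⟨k, hk⟩ := he (some ⟨β, hβγ, hβS⟩)
    refine h3 n k (Φ y) ?_
    show Φ y ∈ GG (e k)
    rw [hk]
    exact ⟨y, ⟨hyP, hyF⟩, rfl⟩
  · intro y y' hne
    refine h4 (Φ y) (Φ y') fun h5 => hne ?_
    exact congrFun (congrArg Prod.fst h5) ⟨γ, le_rfl⟩

/-- all the data -/
theorem exists_data [CompactSpace X] [WellFoundedLT I]
    (hI : ∀ i : I, (Iio i).Countable) (hf : ∀ i, Continuous (f i)) (hF : ∀ i, IsClosed (F i))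
    (hS : ∀ β ∈ S, ∀ x ∈ F β, ∀ x' ∈ F β, (∀ ξ < β, f ξ x = f ξ x') → x = x') :
    ∃ W : I → DD X I, ∀ γ, Good f F S γ W (W γ) :=
  exists_rec (fun γ W v => Good f F S γ W v) (fun γ W W' v h hg => good_loc γ W W' v h hg)
    (fun γ W hW => exists_good hI hf hF hS γ W hW)

/-- every partial point extends -/
theorem exists_ext [WellFoundedLT I] {W : I → DD X I} (hW : ∀ γ, Good f F S γ W (W γ)) (δ : I)
    (x : X) (ε : ZZ I) (h : Pre W δ (x, ε)) :
    ∃ ε' : ZZ I, (∀ β < δ, ∀ m, ε' (β, m) = ε (β, m)) ∧ ∀ γ, Cn W γ (x, ε') := by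
  classical
  obtain ⟨w, hw⟩ := exists_rec (I := I) (D := ℕ → Bool)
    (fun γ p v => (γ < δ → ∀ m, v m = ε (γ, m)) ∧
      ∀ n, (v n = true → (x, fun q : I × ℕ => p q.1 q.2) ∈ (W γ n).1) ∧
        (v n = false → (x, fun q : I × ℕ => p q.1 q.2) ∈ (W γ n).2))
    (by
      rintro γ p q v hpq ⟨h1, h2⟩
      refine ⟨h1, fun n => ?_⟩
      have hd := (hW γ).dep n (x, fun r : I × ℕ => p r.1 r.2) (x, fun r : I × ℕ => q r.1 r.2)
        (fun _ _ => rfl) (fun β hβ m => congrFun (hpq β hβ) m)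
      exact ⟨fun hv => hd.1.1 ((h2 n).1 hv), fun hv => hd.2.1 ((h2 n).2 hv)⟩)
    (by
      intro γ p hp
      by_cases hγ : γ < δ
      · refine ⟨fun m => ε (γ, m), fun _ _ => rfl, fun n => ?_⟩
        have hd := (hW γ).dep n (x, ε) (x, fun r : I × ℕ => p r.1 r.2)
          (fun _ _ => rfl) (fun β hβ m => ((hp β hβ).1 (hβ.trans hγ) m).symm)
        exact ⟨fun hv => hd.1.1 ((h γ hγ n).1 hv), fun hv => hd.2.1 ((h γ hγ n).2 hv)⟩
      · refine ⟨fun n => decide ((x, fun r : I × ℕ => p r.1 r.2) ∈ (W γ n).1),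
          fun h => (hγ h).elim, fun n => ⟨fun hv => by simpa using hv, fun hv => ?_⟩⟩
        have h1 : (x, fun r : I × ℕ => p r.1 r.2) ∉ (W γ n).1 := by simpa using hv
        exact ((hW γ).cover n _).resolve_left h1)
  exact ⟨fun q => w q.1 q.2, fun β hβ m => (hw β).1 hβ m, fun γ n => (hw γ).2 n⟩

end MPd1327c
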