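import Pool.Agent.Lib.MP_d1327c_gt.CST
import Pool.Agent.Lib.MP_d1327c_gt.CHN

/-!
# MP_d1327c_gt: the theorem for closed subspaces of Σ-products
-/

set_option autoImplicit false
set_option linter.unusedSectionVars false

open Set Topology TopologicalSpace

namespace MPd1327c

universe u v w

section rep

variable {A : Type u} {I : Type v} [LinearOrder I] {K : A → Type w}

/-- the points with a given address -/
def FX (o : ∀ a, K a) (F : ∀ a, I → Set (K a)) (p : Adr A I) : Set (∀ a, K a) :=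
  {x | ∀ a, (a ∈ (p.1 : Set A) → x a ∈ F a p.2) ∧ (a ∉ (p.1 : Set A) → x a = o a)}

theorem FX_mono {o : ∀ a, K a} {F : ∀ a, I → Set (K a)}
    (hmono : ∀ a i j, i ≤ j → F a i ⊆ F a j) (ho : ∀ a i, o a ∈ F a i) (p q : Adr A I)
    (hpq : p ≤ q) : FX o F p ⊆ FX o F q := by
  intro x hx a
  have h1 := (adr_le p q).1 hpq
  by_cases ha : a ∈ (p.1 : Set A)
  · exact ⟨fun _ => hmono a _ _ h1.2 ((hx a).1 ha), fun h => (h (h1.1 ha)).elim⟩
  · exact ⟨fun _ => by rw [(hx a).2 ha]; exact ho a _, fun _ => (hx a).2 ha⟩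

theorem FX_closed [∀ a, TopologicalSpace (K a)] [∀ a, T2Space (K a)] {o : ∀ a, K a}
    {F : ∀ a, I → Set (K a)} (hF : ∀ a i, IsClosed (F a i)) (p : Adr A I) :
    IsClosed (FX o F p) := by
  have h1 : FX o F p = ⋂ a, ({x | a ∈ (p.1 : Set A) → x a ∈ F a p.2} ∩
      {x | a ∉ (p.1 : Set A) → x a = o a}) := by
    ext x
    simp [FX]
  rw [h1]
  refine isClosed_iInter fun a => IsClosed.inter ?_ ?_
  · by_cases ha : a ∈ (p.1 : Set A)
    · simp only [ha, forall_const]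
      exact (hF a p.2).preimage (continuous_apply a)
    · simp [ha]
  · by_cases ha : a ∈ (p.1 : Set A)
    · simp [ha]
    · simp only [ha, not_false_eq_true, forall_const]
      exact isClosed_eq (continuous_apply a) continuous_const

theorem exists_adr [Uncountable I] (hI : ∀ i : I, (Iio i).Countable) {o : ∀ a, K a}
    {F : ∀ a, I → Set (K a)}
    (hmono : ∀ a i j, i ≤ j → F a i ⊆ F a j) (hU : ∀ a x, ∃ i, x ∈ F a i) (x : ∀ a, K a)
    (hx : {a | x a ≠ o a}.Countable) : ∃ p : Adr A I, x ∈ FX o F p := by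
  choose i hi using hU
  obtain ⟨b, hb⟩ := exists_bound hI _ (hx.image fun a => i a (x a))
  refine ⟨⟨⟨_, hx⟩, b⟩, fun a => ⟨fun ha => ?_, fun ha => ?_⟩⟩
  · exact hmono a _ _ (hb _ ⟨a, ha, rfl⟩) (hi a (x a))
  · by_contra h
    exact ha h

theorem rep [Uncountable I] (hI : ∀ i : I, (Iio i).Countable)
    [∀ a, TopologicalSpace (K a)] [∀ a, CompactSpace (K a)] [∀ a, T2Space (K a)]
    (o : ∀ a, K a) (F : ∀ a, I → Set (K a)) (f : ∀ a, I → K a → ℝ)
    (hF : ∀ a i, IsClosed (F a i)) (hmono : ∀ a i j, i ≤ j → F a i ⊆ F a j)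
    (ho : ∀ a i, o a ∈ F a i)
    (hU : ∀ a x, ∃ i, x ∈ F a i) (hf : ∀ a i, Continuous (f a i))
    (X : Set (∀ a, K a)) (hX : IsClosed X) (hsupp : ∀ x ∈ X, {a | x a ≠ o a}.Countable) :
    ∃ Γ : Finset (A × I × ℕ) → Adr A I, ∀ p : Adr A I, (Iio p.2).Nonempty →
      (∀ E : Finset (A × I × ℕ), (E : Set (A × I × ℕ)) ⊆ cs p → Γ E ≤ p) →
      ∀ x ∈ X, ∃ x' ∈ X, x' ∈ FX o F p ∧
        ∀ a ∈ (p.1 : Set A), ∀ i < p.2, f a i (x' a) = f a i (x a) := by
  classical
  let Q := (Σ E : Finset (A × I), (E → ℚ)) × ℕ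
  let box : Q → Set (∀ a, K a) := fun q =>
    {x | ∀ e : q.1.1, |f e.1.1 e.1.2 (x e.1.1) - q.1.2 e| < 1 / ((q.2 : ℝ) + 1)}
  have h1 : ∀ q : Q, ∃ p : Adr A I, (∃ x ∈ X, x ∈ box q) → ∃ x ∈ X, x ∈ box q ∧ x ∈ FX o F p := by
    intro q
    by_cases h : ∃ x ∈ X, x ∈ box q
    · obtain ⟨x, hx, hxq⟩ := h
      obtain ⟨p, hp⟩ := exists_adr hI hmono hU x (hsupp x hx)
      exact ⟨p, fun _ => ⟨x, hx, hxq, hp⟩⟩
    · obtain ⟨i⟩ : Nonempty I := inferInstance
      exact ⟨⟨⟨∅, countable_empty⟩, i⟩, fun h' => (h h').elim⟩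
  choose ad had using h1
  have h2 : ∀ E : Finset (A × I), ∃ b : Adr A I, ∀ (φ : E → ℚ) (n : ℕ), ad (⟨E, φ⟩, n) ≤ b := by
    intro E
    obtain ⟨b, hb⟩ := adr_dir hI (range fun r : (E → ℚ) × ℕ => ad (⟨E, r.1⟩, r.2))
      (countable_range _)
    exact ⟨b, fun φ n => hb _ ⟨(φ, n), rfl⟩⟩
  choose bd hbd using h2
  refine ⟨fun E => bd (E.image fun j => (j.1, j.2.1)), fun p hp0 hp x hx => ?_⟩
  have hbp : ∀ E : Finset (A × I), (∀ e ∈ E, e.1 ∈ (p.1 : Set A) ∧ e.2 < p.2) → bd E ≤ p := by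
    intro E hE
    have h3 := hp (E.image fun e => (e.1, e.2, 0)) (by
      intro j hj
      obtain ⟨e, he, rfl⟩ := Finset.mem_image.1 (Finset.mem_coe.1 hj)
      exact hE e he)
    have h4 : ((E.image fun e => (e.1, e.2, (0 : ℕ))).image fun j => (j.1, j.2.1)) = E := by
      rw [Finset.image_image]
      exact Finset.image_id
    simp only [h4] at h3
    exact h3
  let ψ : (∀ a, K a) → ((p.1 : Set A) × Iio p.2 → ℝ) := fun x q => f q.1 q.2 (x q.1)
  have hψ : Continuous ψ := continuous_pi fun q => (hf q.1 q.2).comp (continuous_apply _)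
  have hcl : IsClosed (ψ '' (X ∩ FX o F p)) :=
    ((hX.inter (FX_closed hF p)).isCompact.image hψ).isClosed
  have hmem : ψ x ∈ closure (ψ '' (X ∩ FX o F p)) := by
    rw [mem_closure_iff]
    intro O hO hxO
    obtain ⟨E, w, hw, hwO⟩ := isOpen_pi_iff.1 hO _ hxO
    have h3 : ∀ e ∈ E, ∃ r : ℝ, 0 < r ∧ Metric.ball (ψ x e) r ⊆ w e := fun e he =>
      Metric.isOpen_iff.1 (hw e he).1 _ (hw e he).2
    choose! r hr0 hr using h3
    obtain ⟨η, hη, hηr⟩ : ∃ η : ℝ, 0 < η ∧ ∀ e ∈ E, η ≤ r e := by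
      rcases E.eq_empty_or_nonempty with rfl | hne
      · exact ⟨1, one_pos, by simp⟩
      · obtain ⟨e0, he0, hmin⟩ := E.exists_min_image r hne
        exact ⟨r e0, hr0 e0 he0, hmin⟩
    obtain ⟨n, hn⟩ := exists_nat_one_div_lt (half_pos hη)
    let E' : Finset (A × I) := E.image fun e => ((e.1 : A), (e.2 : I))
    have hq : ∀ e : A × I, ∃ q : ℚ, |f e.1 e.2 (x e.1) - q| < 1 / ((n : ℝ) + 1) := fun e =>
      exists_rat_near _ Nat.one_div_pos_of_nat
    choose q hq using hq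
    let t : Q := (⟨E', fun e => q e⟩, n)
    obtain ⟨z, hzX, hzt, hzp⟩ := had t ⟨x, hx, fun e => hq e⟩
    have h5 : ad t ≤ p := (hbd E' _ n).trans (hbp E' (by
      intro e he
      obtain ⟨e', -, rfl⟩ := Finset.mem_image.1 he
      exact ⟨e'.1.2, e'.2.2⟩))
    refine ⟨ψ z, hwO fun e he => hr e he ?_, ⟨z, ⟨hzX, FX_mono hmono ho _ _ h5 hzp⟩, rfl⟩⟩
    have h6 : |f e.1 e.2 (z e.1) - q (e.1, e.2)| < 1 / ((n : ℝ) + 1) :=
      hzt ⟨(e.1, e.2), Finset.mem_image_of_mem _ he⟩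
    have h7 := hq (e.1, e.2)
    rw [abs_sub_comm] at h7
    rw [Metric.mem_ball, Real.dist_eq]
    calc |f e.1 e.2 (z e.1) - f e.1 e.2 (x e.1)| ≤
          |f e.1 e.2 (z e.1) - q (e.1, e.2)| + |(q (e.1, e.2) : ℝ) - f e.1 e.2 (x e.1)| :=
          abs_sub_le _ _ _
      _ < η := by linarith
      _ ≤ r e := hηr e he
  rw [hcl.closure_eq] at hmem
  obtain ⟨x', ⟨hx', hxp⟩, he⟩ := hmem
  exact ⟨x', hx', hxp, fun a ha i hi => congrFun he (⟨a, ha⟩, ⟨i, hi⟩)⟩

end rep

theorem main {A : Type u} {I : Type v} [LinearOrder I] [WellFoundedLT I] [Uncountable I]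
    (hI : ∀ i : I, (Iio i).Countable) (K : A → Type w)
    [∀ a, TopologicalSpace (K a)] [∀ a, CompactSpace (K a)] [∀ a, T2Space (K a)]
    (o : ∀ a, K a) (F : ∀ a, I → Set (K a)) (f : ∀ a, I → K a → ℝ)
    (hF : ∀ a i, IsClosed (F a i)) (hmono : ∀ a i j, i ≤ j → F a i ⊆ F a j)
    (ho : ∀ a i, o a ∈ F a i)
    (hU : ∀ a x, ∃ i, x ∈ F a i) (hf : ∀ a i, Continuous (f a i))
    (hS : ∀ h : I → I, ∃ δ, (Iio δ).Nonempty ∧ (∀ i < δ, h i < δ) ∧
      ∀ a, ∀ x ∈ F a δ, ∀ y ∈ F a δ, (∀ i < δ, f a i x = f a i y) → x = y)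
    (X : Set (∀ a, K a)) (hX : IsClosed X) (hsupp : ∀ x ∈ X, {a | x a ≠ o a}.Countable) :
    ∃ (Y : Type (max u v w)) (_ : TopologicalSpace Y) (_ : CompactSpace Y) (_ : T2Space Y)
      (g : Y → X), IsTopologicalBasis {s : Set Y | IsClopen s} ∧ Continuous g ∧
        Function.Surjective g ∧ IsLindelof {u : Y → ℝ | Continuous u} := by
  classical
  obtain ⟨m, -, hm⟩ := (wellFounded_lt (α := I)).has_min univ univ_nonempty
  have hm' : ∀ i : I, ¬ i < m := fun i => hm i trivial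
  let F' : ∀ a, I → Set (K a) := fun a i => if i = m then {o a} else F a i
  have hF'm : ∀ a, F' a m = {o a} := fun a => if_pos rfl
  have hF' : ∀ a i, IsClosed (F' a i) := by
    intro a i
    by_cases h : i = m
    · simp only [F', h, if_true]
      exact isClosed_singleton
    · simp only [F', h, if_false]
      exact hF a i
  let S : A → Set I := fun a => {δ | ∀ x ∈ F' a δ, ∀ y ∈ F' a δ, (∀ i < δ, f a i x = f a i y) → x = y}
  have hmS : ∀ a, m ∈ S a := by
    intro a x hx y hy _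
    rw [hF'm] at hx hy
    rw [mem_singleton_iff.1 hx, mem_singleton_iff.1 hy]
  have hdat : ∀ a, ∃ W : I → DD (K a) I, ∀ γ, Good (f a) (F' a) (S a) γ W (W γ) := fun a =>
    exists_data hI (hf a) (hF' a) (fun β hβ => hβ)
  choose W hW using hdat
  let Ya : A → Type (max w v) := fun a => {y : K a × ZZ I // ∀ γ, Cn (W a) γ y}
  have hYc : ∀ a, IsClosed {y : K a × ZZ I | ∀ γ, Cn (W a) γ y} := by
    intro a
    rw [show {y : K a × ZZ I | ∀ γ, Cn (W a) γ y} = ⋂ γ, {y | Cn (W a) γ y} by ext; simp]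
    exact isClosed_iInter fun γ => isClosed_cn (hW a γ).closed
  have hYcomp : ∀ a, CompactSpace (Ya a) := fun a => isCompact_iff_compactSpace.1 (hYc a).isCompact
  have hunb : ∀ i : I, ∃ j, i < j := by
    intro i
    by_contra hcon
    push Not at hcon
    have h1 : (Iic i).Countable := by
      rw [← Iio_union_right]
      exact (hI i).union (countable_singleton i)
    have h2 : (univ : Set I) ⊆ Iic i := fun k _ => hcon k
    exact not_countable_univ (h1.mono h2)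
  -- uniqueness
  have huniq : ∀ a, ∀ β ∈ S a, ∀ y y' : Ya a, y.1.1 ∈ F' a β → y'.1.1 ∈ F' a β →
      (∀ α < β, ∀ n, y.1.2 (α, n) = y'.1.2 (α, n)) → y = y' := by
    intro a β hβ y y' hy hy' hj
    have h1 : ∀ γ, β ≤ γ → y.1.1 = y'.1.1 ∧ ∀ α < γ, ∀ n, y.1.2 (α, n) = y'.1.2 (α, n) :=
      fun γ hγ => uniq (γ := γ) (fun ξ _ => hW a ξ) hγ hβ hβ hy hy' (fun ξ _ => y.2 ξ)
        (fun ξ _ => y'.2 ξ) hj
    refine Subtype.ext (Prod.ext (h1 β le_rfl).1 ?_)
    funext q
    obtain ⟨γ, hγ⟩ := hunb q.1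
    exact (h1 (max γ β) (le_max_right _ _)).2 q.1 (hγ.trans_le (le_max_left _ _)) q.2
  -- all points of `K a` are separated by the functions
  have hsep : ∀ a, ∀ x y : K a, (∀ i, f a i x = f a i y) → x = y := by
    intro a x y hxy
    obtain ⟨i, hi⟩ := hU a x
    obtain ⟨j, hj⟩ := hU a y
    obtain ⟨δ, hδ0, hδ, hδS⟩ := hS fun _ => max i j
    obtain ⟨k, hk⟩ := hδ0
    have h1 := hδ k hk
    exact hδS a x (hmono a _ _ ((le_max_left i j).trans h1.le) hi) y
      (hmono a _ _ ((le_max_right i j).trans h1.le) hj) fun i _ => hxy i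
  have hinj : ∀ a, ∀ y y' : Ya a, y.1.2 = y'.1.2 → y = y' := by
    intro a y y' h
    refine Subtype.ext (Prod.ext (hsep a _ _ fun ξ => ?_) h)
    exact eqf (hW a ξ) (y.2 ξ) (y'.2 ξ) fun m => by rw [h]
  have htd : ∀ a, TotallyDisconnectedSpace (Ya a) := by
    intro a
    refine ⟨isTotallyDisconnected_of_image (f := fun y : Ya a => y.1.2)
      (continuous_snd.comp continuous_subtype_val).continuousOn (fun y y' h => hinj a y y' h) ?_⟩
    exact isTotallyDisconnected_of_totallyDisconnectedSpace _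
  -- lifts
  have hlift : ∀ a, ∀ x : K a, ∃ y : Ya a, y.1.1 = x := by
    intro a x
    obtain ⟨ε, -, hε⟩ := exists_ext (hW a) m x (fun _ => false) (fun β hβ => (hm' β hβ).elim)
    exact ⟨⟨(x, ε), hε⟩, rfl⟩
  let pr : (∀ a, Ya a) → (∀ a, K a) := fun y a => (y a).1.1
  have hpr : Continuous pr := continuous_pi fun a =>
    (continuous_fst.comp continuous_subtype_val).comp (continuous_apply a)
  let Y := {y : ∀ a, Ya a // pr y ∈ X}
  have hYcl : IsClosed {y : ∀ a, Ya a | pr y ∈ X} := hX.preimage hpr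
  have hYC : CompactSpace Y := isCompact_iff_compactSpace.1 hYcl.isCompact
  have hYT : TotallyDisconnectedSpace Y := inferInstance
  refine ⟨Y, inferInstance, hYC, inferInstance, fun y => ⟨pr y.1, y.2⟩, isTopologicalBasis_isClopen,
    (hpr.comp continuous_subtype_val).subtype_mk _, ?_, ?_⟩
  · rintro ⟨x, hx⟩
    choose y hy using fun a => hlift a (x a)
    have h1 : pr y = x := funext hy
    exact ⟨⟨y, by rw [h1]; exact hx⟩, Subtype.ext h1⟩
  · obtain ⟨Γ₀, hΓ₀⟩ := rep hI o F f hF hmono ho hU hf X hX hsupp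
    refine lindelof (J := A × I × ℕ) (Ad := Adr A I) (fun j (y : Y) => (y.1 j.1).1.2 j.2)
      (fun j => (continuous_apply j.2).comp (continuous_snd.comp (continuous_subtype_val.comp
        ((continuous_apply j.1).comp continuous_subtype_val))))
      (fun p => {y : Y | pr y.1 ∈ FX o F p}) ?_ ?_ ?_ (fun C hC => adr_dir hI C hC) cs
      (countable_cs hI) ?_
    · exact fun p q hpq y hy => FX_mono hmono ho p q hpq hy
    · exact fun p => (FX_closed hF p).preimage (hpr.comp continuous_subtype_val)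
    · exact fun y => exists_adr hI hmono hU (pr y.1) (hsupp _ y.2)
    · intro Γ
      have hΓ' : ∀ E, ∃ b : Adr A I, Γ E ≤ b ∧ Γ₀ E ≤ b := by
        intro E
        obtain ⟨b, hb⟩ := adr_dir hI {Γ E, Γ₀ E} (by simp)
        exact ⟨b, hb _ (by simp), hb _ (by simp)⟩
      choose Γ' hΓ1 hΓ2 using hΓ'
      obtain ⟨p, hp, hpS, hp0⟩ := chain hI
        {δ | ∀ a, ∀ x ∈ F a δ, ∀ y ∈ F a δ, (∀ i < δ, f a i x = f a i y) → x = y}
        (fun h => by
          obtain ⟨δ, h1, h2, h3⟩ := hS h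
          exact ⟨δ, h3, h1, h2⟩) Γ'
      have hpm : p.2 ≠ m := by
        rintro h
        obtain ⟨i, hi⟩ := hp0
        rw [h] at hi
        exact hm' i hi
      have hFp : ∀ a, F' a p.2 = F a p.2 := fun a => if_neg hpm
      have hpSa : ∀ a, p.2 ∈ S a := by
        intro a x hx y hy hxy
        rw [hFp] at hx hy
        exact hpS a x hx y hy hxy
      refine ⟨p, fun E hE => (hΓ1 E).trans (hp E hE), ?_, ?_⟩
      · intro y hy y' hy' hj
        refine Subtype.ext (funext fun a => ?_)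
        by_cases ha : a ∈ (p.1 : Set A)
        · refine huniq a p.2 (hpSa a) _ _ ?_ ?_ fun α hα n => hj (a, α, n) ⟨ha, hα⟩
          · rw [hFp]
            exact (hy a).1 ha
          · rw [hFp]
            exact (hy' a).1 ha
        · refine huniq a m (hmS a) _ _ ?_ ?_ fun α hα => (hm' α hα).elim
          · rw [hF'm]
            exact (hy a).2 ha
          · rw [hF'm]
            exact (hy' a).2 ha
      · intro y
        obtain ⟨x', hx'X, hx'p, hx'f⟩ := hΓ₀ p hp0 (fun E hE => (hΓ2 E).trans (hp E hE))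
          (pr y.1) y.2
        have h1 : ∀ a, ∃ z : Ya a, z.1.1 = x' a ∧ (a ∈ (p.1 : Set A) → ∀ i < p.2, ∀ n,
            z.1.2 (i, n) = (y.1 a).1.2 (i, n)) := by
          intro a
          by_cases ha : a ∈ (p.1 : Set A)
          · have hpre : Pre (W a) p.2 (x' a, (y.1 a).1.2) := by
              intro β hβ n
              have hd' := (hW a β).dep n (y.1 a).1 (x' a, (y.1 a).1.2)
                (fun ξ hξ => (hx'f a ha ξ (hξ.trans_lt hβ)).symm) (fun _ _ _ => rfl)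
              exact ⟨fun hb => hd'.1.1 (((y.1 a).2 β n).1 hb),
                fun hb => hd'.2.1 (((y.1 a).2 β n).2 hb)⟩
            obtain ⟨ε', h1, h2⟩ := exists_ext (hW a) p.2 (x' a) (y.1 a).1.2 hpre
            exact ⟨⟨(x' a, ε'), h2⟩, rfl, fun _ i hi n => h1 i hi n⟩
          · obtain ⟨z, hz⟩ := hlift a (x' a)
            exact ⟨z, hz, fun h => (ha h).elim⟩
        choose z hz1 hz2 using h1
        have h2 : pr z = x' := funext hz1
        refine ⟨⟨z, by rw [h2]; exact hx'X⟩, by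
          show pr z ∈ FX o F p
          rw [h2]
          exact hx'p, ?_⟩
        rintro ⟨a, i, n⟩ ⟨ha, hi⟩
        exact hz2 a ha i hi n

end MPd1327c
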