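import Mathlib

/-!
# MP_d1327c_gt: recursion, and splitting a space along partitions which miss given sets
-/

set_option autoImplicit false

open Set Topology TopologicalSpace

namespace MPd1327c

/-- transfinite recursion with a property of the data -/
theorem exists_rec {I D : Type*} [LinearOrder I] [WellFoundedLT I] [Nonempty D]
    (P : I → (I → D) → D → Prop)
    (loc : ∀ γ (p q : I → D) v, (∀ β < γ, p β = q β) → P γ p v → P γ q v)
    (ext : ∀ γ (p : I → D), (∀ β < γ, P β p (p β)) → ∃ v, P γ p v) :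
    ∃ W : I → D, ∀ γ, P γ W (W γ) := by
  classical
  let d₀ : D := Classical.arbitrary D
  let F : ∀ γ : I, (∀ β : I, β < γ → D) → D := fun γ prev =>
    if h : ∃ v, P γ (fun β => if hb : β < γ then prev β hb else d₀) v then h.choose else d₀
  let W : I → D := (wellFounded_lt (α := I)).fix F
  have hW : ∀ γ, W γ = F γ (fun β _ => W β) := fun γ => WellFounded.fix_eq _ F γ
  refine ⟨W, fun γ => ?_⟩
  induction γ using WellFoundedLT.induction with
  | ind γ ih =>
    set p : I → D := fun β => if β < γ then W β else d₀ with hp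
    have hpW : ∀ β < γ, p β = W β := fun β hβ => by simp [hp, hβ]
    have hex : ∃ v, P γ p v := by
      apply ext
      intro β hβ
      rw [hpW β hβ]
      exact loc β W p _ (fun α hα => (hpW α (hα.trans hβ)).symm) (ih β hβ)
    have h1 : W γ = hex.choose := by
      rw [hW γ]
      show (if h : ∃ v, P γ (fun β => if hb : β < γ then W β else d₀) v then h.choose else d₀) = _
      exact dif_pos hex
    rw [h1]
    exact loc γ p W _ hpW hex.choose_spec

/-- a compact set whose points are separated by two-valued continuous functions can be split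
between two disjoint closed sets -/
theorem split {P J : Type*} [TopologicalSpace P] (G : Set P) (hG : IsCompact G)
    (hGc : IsClosed G) (b : J → P → Bool)
    (hb : ∀ j, Continuous (b j)) (hsep : ∀ z ∈ G, ∀ z' ∈ G, (∀ j, b j z = b j z') → z = z')
    (C D : Set P) (hC : IsClosed C) (hD : IsClosed D) (hCD : Disjoint C D) :
    ∃ H H' : Set P, IsClosed H ∧ IsClosed H' ∧ H ∪ H' = G ∧ Disjoint H H' ∧
      G ∩ C ⊆ H ∧ G ∩ D ⊆ H' := by
  classical
  have hK : IsCompact ((G ∩ C) ×ˢ (G ∩ D)) := (hG.inter_right hC).prod (hG.inter_right hD)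
  obtain ⟨E, hE⟩ := hK.elim_finite_subcover (fun j => {q : P × P | b j q.1 ≠ b j q.2})
    (fun j => by
      have h1 : Continuous fun q : P × P => (b j q.1, b j q.2) :=
        ((hb j).comp continuous_fst).prodMk ((hb j).comp continuous_snd)
      exact (isOpen_discrete {r : Bool × Bool | r.1 ≠ r.2}).preimage h1)
    (by
      rintro ⟨z, z'⟩ ⟨⟨h1, h2⟩, h3, h4⟩
      rw [mem_iUnion]
      by_contra hcon
      push Not at hcon
      have h5 : z = z' := hsep z h1 z' h3 (fun j => by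
        have := hcon j
        simpa using this)
      subst h5
      exact (hCD.le_bot ⟨h2, h4⟩).elim)
  let φ : P → (E → Bool) := fun z j => b j z
  have hφ : Continuous φ := continuous_pi fun j => hb j
  let T : Set (E → Bool) := φ '' (G ∩ C)
  refine ⟨G ∩ φ ⁻¹' T, G ∩ φ ⁻¹' Tᶜ, hGc.inter ((isClosed_discrete T).preimage hφ),
    hGc.inter ((isClosed_discrete Tᶜ).preimage hφ), ?_, ?_, ?_, ?_⟩
  · ext z
    simp only [mem_union, mem_inter_iff, mem_preimage, mem_compl_iff]
    tauto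
  · rw [Set.disjoint_left]
    rintro z ⟨_, h1⟩ ⟨_, h2⟩
    exact h2 h1
  · rintro z hz
    exact ⟨hz.1, z, hz, rfl⟩
  · rintro z hz
    refine ⟨hz.1, ?_⟩
    rintro ⟨c, hc, hcz⟩
    have h1 := hE (show (c, z) ∈ (G ∩ C) ×ˢ (G ∩ D) from ⟨hc, hz⟩)
    simp only [mem_iUnion, mem_ofPred_eq, exists_prop] at h1
    obtain ⟨j, hj, h2⟩ := h1
    exact h2 (congrFun hcz ⟨j, hj⟩)

/-- a partition between two closed sets which misses countably many sets which can be split -/
theorem partition {P : Type*} [TopologicalSpace P] [NormalSpace P] (G : ℕ → Set P)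
    (hG : ∀ k, ∀ C D : Set P, IsClosed C → IsClosed D → Disjoint C D → ∃ H H' : Set P,
      IsClosed H ∧ IsClosed H' ∧ H ∪ H' = G k ∧ Disjoint H H' ∧ G k ∩ C ⊆ H ∧ G k ∩ D ⊆ H')
    (C D : Set P) (hC : IsClosed C) (hD : IsClosed D) (hCD : Disjoint C D) :
    ∃ U V : Set P, IsOpen U ∧ IsOpen V ∧ Disjoint U V ∧ C ⊆ U ∧ D ⊆ V ∧ ∀ k, G k ⊆ U ∪ V := by
  classical
  let σ := {p : Set P × Set P // IsClosed p.1 ∧ IsClosed p.2 ∧ Disjoint p.1 p.2}
  have step : ∀ (k : ℕ) (s : σ), ∃ s' : σ, s.1.1 ⊆ interior s'.1.1 ∧ s.1.2 ⊆ interior s'.1.2 ∧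
      G k ⊆ interior s'.1.1 ∪ interior s'.1.2 := by
    rintro k ⟨⟨A, B⟩, hA, hB, hAB⟩
    obtain ⟨H, H', h1, h2, h3, h4, h5, h6⟩ := hG k A B hA hB hAB
    have hdis : Disjoint (A ∪ H) (B ∪ H') := by
      rw [Set.disjoint_left]
      rintro z (hz | hz) (hz' | hz')
      · exact hAB.le_bot ⟨hz, hz'⟩
      · exact h4.le_bot ⟨h5 ⟨h3 ▸ Or.inr hz', hz⟩, hz'⟩
      · exact h4.le_bot ⟨hz, h6 ⟨h3 ▸ Or.inl hz, hz'⟩⟩
      · exact h4.le_bot ⟨hz, hz'⟩
    obtain ⟨U, hU, hAU, hUB⟩ := normal_exists_closure_subset (hA.union h1)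
      (hB.union h2).isOpen_compl (fun z hz hz' => hdis.le_bot ⟨hz, hz'⟩)
    obtain ⟨V, hV, hBV, hVU⟩ := normal_exists_closure_subset (hB.union h2)
      (isClosed_closure (s := U)).isOpen_compl (fun z hz hz' => hUB hz' hz)
    refine ⟨⟨⟨closure U, closure V⟩, isClosed_closure, isClosed_closure, ?_⟩, ?_, ?_, ?_⟩
    · rw [Set.disjoint_left]
      exact fun z hz hz' => hVU hz' hz
    · exact (subset_union_left.trans hAU).trans (interior_maximal subset_closure hU)
    · exact (subset_union_left.trans hBV).trans (interior_maximal subset_closure hV)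
    · rw [← h3]
      exact union_subset_union
        ((subset_union_right.trans hAU).trans (interior_maximal subset_closure hU))
        ((subset_union_right.trans hBV).trans (interior_maximal subset_closure hV))
  choose f hf1 hf2 hf3 using step
  let s : ℕ → σ := fun n => Nat.rec (⟨⟨C, D⟩, hC, hD, hCD⟩ : σ) (fun k s => f k s) n
  have hs : ∀ n, s (n + 1) = f n (s n) := fun n => rfl
  have mono1 : Monotone fun n => (s n).1.1 := monotone_nat_of_le_succ fun n => by
    rw [hs]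
    exact (hf1 n (s n)).trans interior_subset
  have mono2 : Monotone fun n => (s n).1.2 := monotone_nat_of_le_succ fun n => by
    rw [hs]
    exact (hf2 n (s n)).trans interior_subset
  refine ⟨⋃ n, interior (s n).1.1, ⋃ n, interior (s n).1.2, isOpen_iUnion fun _ => isOpen_interior,
    isOpen_iUnion fun _ => isOpen_interior, ?_, ?_, ?_, ?_⟩
  · rw [Set.disjoint_left]
    intro z hz hz'
    obtain ⟨m, hm⟩ := mem_iUnion.1 hz
    obtain ⟨n, hn⟩ := mem_iUnion.1 hz'
    exact (s (max m n)).2.2.2.le_bot ⟨mono1 (le_max_left m n) (interior_subset hm),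
      mono2 (le_max_right m n) (interior_subset hn)⟩
  · exact subset_trans (hf1 0 (s 0)) (subset_iUnion (fun n => interior (s n).1.1) 1)
  · exact subset_trans (hf2 0 (s 0)) (subset_iUnion (fun n => interior (s n).1.2) 1)
  · intro k
    refine (hf3 k (s k)).trans ?_
    rw [← hs]
    exact union_subset_union (subset_iUnion (fun n => interior (s n).1.1) (k + 1))
      (subset_iUnion (fun n => interior (s n).1.2) (k + 1))

/-- countably many partitions which separate the points and miss the sets `G k` -/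
theorem family {P : Type*} [TopologicalSpace P] [NormalSpace P] [T1Space P]
    [SecondCountableTopology P] (G : ℕ → Set P)
    (hG : ∀ k, ∀ C D : Set P, IsClosed C → IsClosed D → Disjoint C D → ∃ H H' : Set P,
      IsClosed H ∧ IsClosed H' ∧ H ∪ H' = G k ∧ Disjoint H H' ∧ G k ∩ C ⊆ H ∧ G k ∩ D ⊆ H') :
    ∃ v : ℕ → Set P × Set P, (∀ n, IsClosed (v n).1 ∧ IsClosed (v n).2) ∧
      (∀ n z, z ∈ (v n).1 ∨ z ∈ (v n).2) ∧
      (∀ n k, ∀ z ∈ G k, ¬(z ∈ (v n).1 ∧ z ∈ (v n).2)) ∧
      ∀ z z', z ≠ z' → ∃ n, z ∉ (v n).2 ∧ z' ∉ (v n).1 := by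
  classical
  obtain ⟨𝓑, hc, -, hbas⟩ := exists_countable_basis P
  let K := {q : 𝓑 × 𝓑 // Disjoint (closure (q.1 : Set P)) (closure (q.2 : Set P))}
  have hcc : Countable 𝓑 := hc.to_subtype
  have h1 : ∀ q : K, ∃ w : Set P × Set P, (IsClosed w.1 ∧ IsClosed w.2) ∧
      (∀ z, z ∈ w.1 ∨ z ∈ w.2) ∧ (∀ k, ∀ z ∈ G k, ¬(z ∈ w.1 ∧ z ∈ w.2)) ∧
      (∀ z ∈ (q.1.1 : Set P), z ∉ w.2) ∧ ∀ z ∈ (q.1.2 : Set P), z ∉ w.1 := by
    rintro ⟨⟨O, O'⟩, hO⟩
    obtain ⟨U, V, hU, hV, hUV, hOU, hOV, hGk⟩ := partition G hG _ _ isClosed_closure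
      isClosed_closure hO
    refine ⟨⟨Vᶜ, Uᶜ⟩, ⟨hV.isClosed_compl, hU.isClosed_compl⟩, ?_, ?_, ?_, ?_⟩
    · intro z
      by_cases hz : z ∈ V
      · exact Or.inr fun hz' => hUV.le_bot ⟨hz', hz⟩
      · exact Or.inl hz
    · rintro k z hz ⟨h2, h3⟩
      rcases hGk k hz with h4 | h4
      · exact h3 h4
      · exact h2 h4
    · exact fun z hz hz' => hz' (hOU (subset_closure hz))
    · exact fun z hz hz' => hz' (hOV (subset_closure hz))
  choose w hw using h1
  have hsepK : ∀ z z' : P, z ≠ z' → ∃ q : K, z ∈ (q.1.1 : Set P) ∧ z' ∈ (q.1.2 : Set P) := by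
    intro z z' hz
    obtain ⟨O, hzO, hO, O', hz'O', hO', hdis⟩ : ∃ O : Set P, z ∈ O ∧ IsOpen O ∧ ∃ O' : Set P,
        z' ∈ O' ∧ IsOpen O' ∧ Disjoint (closure O) (closure O') := by
      obtain ⟨U, hU, h1, h2⟩ := normal_exists_closure_subset (isClosed_singleton (x := z))
        (isOpen_compl_singleton (x := z')) (by simpa using hz.symm)
      obtain ⟨V, hV, h3, h4⟩ := normal_exists_closure_subset (isClosed_singleton (x := z'))
        (isClosed_closure (s := U)).isOpen_compl (by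
          rintro y hy hy'
          exact h2 hy' hy)
      refine ⟨U, h1 rfl, hU, V, h3 rfl, hV, ?_⟩
      rw [Set.disjoint_left]
      exact fun y hy hy' => h4 hy' hy
    obtain ⟨b, hb, hzb, hbO⟩ := hbas.exists_subset_of_mem_open hzO hO
    obtain ⟨b', hb', hzb', hbO'⟩ := hbas.exists_subset_of_mem_open hz'O' hO'
    exact ⟨⟨⟨⟨b, hb⟩, ⟨b', hb'⟩⟩, hdis.mono (closure_mono hbO) (closure_mono hbO')⟩, hzb, hzb'⟩
  rcases isEmpty_or_nonempty K with hK | hK
  · refine ⟨fun _ => ⟨univ, ∅⟩, fun _ => ⟨isClosed_univ, isClosed_empty⟩,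
      fun _ _ => Or.inl trivial, fun _ _ _ _ h => h.2, fun z z' hz => ?_⟩
    obtain ⟨q, -⟩ := hsepK z z' hz
    exact (hK.false q).elim
  · obtain ⟨e, he⟩ := exists_surjective_nat K
    refine ⟨fun n => w (e n), fun n => (hw (e n)).1, fun n z => (hw (e n)).2.1 z,
      fun n k z hz => (hw (e n)).2.2.1 k z hz, fun z z' hz => ?_⟩
    obtain ⟨q, h1, h2⟩ := hsepK z z' hz
    obtain ⟨n, hn⟩ := he q
    refine ⟨n, ?_, ?_⟩
    · show z ∉ (w (e n)).2
      rw [hn]
      exact (hw q).2.2.2.1 z h1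
    · show z' ∉ (w (e n)).1
      rw [hn]
      exact (hw q).2.2.2.2 z' h2

end MPd1327c
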